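import Mathlib

/-!
# A convergent series over tuples of integers, with the radical of the product
-/

set_option autoImplicit false
set_option linter.unusedSectionVars false

open Finset
open scoped ENNReal

namespace Pool.Agent.Q154.MA

/-- the radical -/
def rad (n : ℕ) : ℕ := ∏ p ∈ n.primeFactors, p

lemma rad_pos (n : ℕ) : 0 < rad n :=
  Finset.prod_pos fun p hp => (Nat.prime_of_mem_primeFactors hp).pos

lemma rad_le {n : ℕ} (hn : n ≠ 0) : rad n ≤ n :=
  Nat.le_of_dvd (Nat.pos_of_ne_zero hn) (Nat.prod_primeFactors_dvd n)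

lemma primeFactors_rad (n : ℕ) : (rad n).primeFactors = n.primeFactors := by
  unfold rad
  exact Nat.primeFactors_prod fun p hp => Nat.prime_of_mem_primeFactors hp

/-- the number of prime factors is small -/
lemma pow_card_le {K ε : ℝ} (hK : 1 ≤ K) (hε : 0 < ε) :
    ∃ C : ℝ, 1 ≤ C ∧ ∀ s : ℕ, 1 ≤ s → K ^ s.primeFactors.card ≤ C * (s : ℝ) ^ ε := by
  obtain ⟨P, hP⟩ := exists_nat_ge (K ^ (1 / ε))
  refine ⟨K ^ P, one_le_pow₀ hK, fun s hs => ?_⟩
  have hs0 : (0 : ℝ) < s := by exact_mod_cast hs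
  have h1 : s.primeFactors = (s.primeFactors.filter (· < P)) ∪ (s.primeFactors.filter (P ≤ ·)) := by
    ext p
    simp only [Finset.mem_union, Finset.mem_filter]
    constructor
    · intro hp
      rcases lt_or_ge p P with h | h
      · exact Or.inl ⟨hp, h⟩
      · exact Or.inr ⟨hp, h⟩
    · rintro (h | h)
      · exact h.1
      · exact h.1
  have h2 : s.primeFactors.card ≤ P + (s.primeFactors.filter (P ≤ ·)).card := by
    calc s.primeFactors.card ≤ (s.primeFactors.filter (· < P)).card +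
          (s.primeFactors.filter (P ≤ ·)).card := by
          conv_lhs => rw [h1]
          exact Finset.card_union_le _ _
      _ ≤ P + (s.primeFactors.filter (P ≤ ·)).card := by
          refine Nat.add_le_add_right ?_ _
          have h3 : s.primeFactors.filter (· < P) ⊆ Finset.range P := by
            intro p hp
            rw [Finset.mem_filter] at hp
            exact Finset.mem_range.2 hp.2
          have := Finset.card_le_card h3
          rwa [Finset.card_range] at this
  have h4 : K ^ s.primeFactors.card ≤ K ^ (P + (s.primeFactors.filter (P ≤ ·)).card) :=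
    pow_le_pow_right₀ hK h2
  refine h4.trans ?_
  rw [pow_add]
  refine mul_le_mul_of_nonneg_left ?_ (by positivity)
  have h5 : ∀ p ∈ s.primeFactors.filter (P ≤ ·), K ≤ (p : ℝ) ^ ε := by
    intro p hp
    rw [Finset.mem_filter] at hp
    have h6 : K ^ (1 / ε) ≤ (p : ℝ) := hP.trans (by exact_mod_cast hp.2)
    have h7 := Real.rpow_le_rpow (by positivity) h6 hε.le
    rw [← Real.rpow_mul (by linarith), one_div, inv_mul_cancel₀ hε.ne', Real.rpow_one] at h7
    exact h7
  calc K ^ (s.primeFactors.filter (P ≤ ·)).card =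
      ∏ _p ∈ s.primeFactors.filter (P ≤ ·), K := by rw [Finset.prod_const]
    _ ≤ ∏ p ∈ s.primeFactors.filter (P ≤ ·), (p : ℝ) ^ ε :=
        Finset.prod_le_prod (fun _ _ => by linarith) h5
    _ ≤ ∏ p ∈ s.primeFactors, (p : ℝ) ^ ε := by
        have hone : ∀ p ∈ s.primeFactors, (1 : ℝ) ≤ (p : ℝ) ^ ε := by
          intro p hp
          have h8 : (1 : ℝ) ≤ p := by exact_mod_cast (Nat.prime_of_mem_primeFactors hp).one_le
          exact Real.one_le_rpow h8 hε.le
        rw [Finset.prod_filter]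
        refine Finset.prod_le_prod ?_ ?_
        · intro p hp
          have := hone p hp
          split_ifs <;> linarith
        · intro p hp
          have := hone p hp
          split_ifs <;> linarith
    _ = (∏ p ∈ s.primeFactors, (p : ℝ)) ^ ε := by
        rw [Real.finsetProd_rpow]
        intro p _
        exact Nat.cast_nonneg p
    _ ≤ (s : ℝ) ^ ε := by
        refine Real.rpow_le_rpow (by positivity) ?_ hε.le
        have h9 := rad_le (n := s) (by omega)
        unfold rad at h9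
        have h10 : ((∏ p ∈ s.primeFactors, p : ℕ) : ℝ) ≤ s := by exact_mod_cast h9
        push_cast at h10
        exact h10

/-- the multiplicative function `m ↦ m^(-σ)` -/
noncomputable def pw (σ : ℝ) : ℕ →* ℝ where
  toFun m := (m : ℝ) ^ (-σ)
  map_one' := by simp
  map_mul' a b := by
    simp only [Nat.cast_mul]
    exact Real.mul_rpow (Nat.cast_nonneg a) (Nat.cast_nonneg b)

/-- positive integers composed of the prime factors of `s` -/
def DD (s : ℕ) : Set ℕ := {m | m ≠ 0 ∧ m.primeFactors ⊆ s.primeFactors}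

lemma sum_DD {σ : ℝ} (hσ : 0 < σ) (s : ℕ) :
    ∑' m : ℕ, (DD s).indicator (fun m : ℕ => ENNReal.ofReal ((m : ℝ) ^ (-σ))) m ≤
      ENNReal.ofReal ((1 - (2 : ℝ) ^ (-σ))⁻¹ ^ s.primeFactors.card) := by
  have h2 : (2 : ℝ) ^ (-σ) < 1 := Real.rpow_lt_one_of_one_lt_of_neg (by norm_num) (by linarith)
  have h20 : 0 < (2 : ℝ) ^ (-σ) := Real.rpow_pos_of_pos (by norm_num) _
  have hf : ∀ {p : ℕ}, p.Prime → ‖pw σ p‖ < 1 := by
    intro p hp
    show ‖(p : ℝ) ^ (-σ)‖ < 1
    rw [Real.norm_of_nonneg (by positivity)]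
    exact Real.rpow_lt_one_of_one_lt_of_neg (by exact_mod_cast hp.one_lt) (by linarith)
  have h3 := EulerProduct.summable_and_hasSum_factoredNumbers_prod_filter_prime_geometric
    (f := pw σ) hf s.primeFactors
  have hset : DD s = Nat.factoredNumbers s.primeFactors := by
    ext m
    unfold DD
    rw [Nat.mem_factoredNumbers]
    constructor
    · rintro ⟨hm, h⟩
      refine ⟨hm, fun p hp => h ?_⟩
      rw [Nat.mem_primeFactors]
      rw [Nat.mem_primeFactorsList hm] at hp
      exact ⟨hp.1, hp.2, hm⟩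
    · rintro ⟨hm, h⟩
      refine ⟨hm, fun p hp => h p ?_⟩
      rw [Nat.mem_primeFactorsList hm]
      rw [Nat.mem_primeFactors] at hp
      exact ⟨hp.1, hp.2.1⟩
  rw [← _root_.tsum_subtype, hset]
  have h4 : ∀ m : Nat.factoredNumbers s.primeFactors,
      ENNReal.ofReal (((m : ℕ) : ℝ) ^ (-σ)) = ENNReal.ofReal (pw σ (m : ℕ)) := fun m => rfl
  simp only [h4]
  rw [← ENNReal.ofReal_tsum_of_nonneg]
  · rw [h3.2.tsum_eq]
    refine ENNReal.ofReal_le_ofReal ?_
    have h5 : s.primeFactors.filter Nat.Prime = s.primeFactors := by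
      refine Finset.filter_true_of_mem fun p hp => Nat.prime_of_mem_primeFactors hp
    rw [h5, ← Finset.prod_const]
    refine Finset.prod_le_prod ?_ ?_
    · intro p hp
      have h6 := hf (Nat.prime_of_mem_primeFactors hp)
      have h7 : pw σ p ≤ ‖pw σ p‖ := le_abs_self _
      have : 0 < 1 - pw σ p := by linarith
      positivity
    · intro p hp
      have hpp := Nat.prime_of_mem_primeFactors hp
      have h6 : pw σ p ≤ (2 : ℝ) ^ (-σ) := by
        show (p : ℝ) ^ (-σ) ≤ (2 : ℝ) ^ (-σ)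
        refine Real.rpow_le_rpow_of_nonpos (by norm_num) ?_ (by linarith)
        exact_mod_cast hpp.two_le
      exact inv_anti₀ (by linarith) (by linarith)
  · intro m
    show 0 ≤ (((m : ℕ) : ℝ)) ^ (-σ)
    positivity
  · exact h3.2.summable

/-- sums over tuples -/
lemma tsum_tuple (g : ℕ → ℝ≥0∞) (n : ℕ) :
    ∑' a : Fin n → ℕ, ∏ i, g (a i) = (∑' m, g m) ^ n := by
  induction n with
  | zero =>
    rw [pow_zero]
    have : ∑' a : Fin 0 → ℕ, ∏ i, g (a i) = ∑' _a : Fin 0 → ℕ, (1 : ℝ≥0∞) := by simp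
    rw [this]
    simp
  | succ n ih =>
    rw [← (Fin.consEquiv fun _ : Fin (n + 1) => ℕ).tsum_eq, ENNReal.tsum_prod', pow_succ', ← ih,
      ← ENNReal.tsum_mul_right]
    refine tsum_congr fun m => ?_
    rw [← ENNReal.tsum_mul_left]
    refine tsum_congr fun a => ?_
    rw [Fin.prod_univ_succ]
    rfl

/-- the radical of the product of a tuple -/
def radT {n : ℕ} (a : Fin n → ℕ) : ℕ := rad (∏ i, a i)

/-- **The convergent series.** -/
theorem series {σ : ℝ} (hσ : 0 < σ) (n : ℕ) :
    ∑' a : Fin n → ℕ, (if ∀ i, a i ≠ 0 then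
      ENNReal.ofReal ((∏ i, (a i : ℝ) ^ (-(2 * σ))) / radT a) else 0) ≠ ∞ := by
  classical
  obtain ⟨K, hK⟩ : ∃ K : ℝ, K = (1 - (2 : ℝ) ^ (-σ))⁻¹ := ⟨_, rfl⟩
  have h2 : (2 : ℝ) ^ (-σ) < 1 := Real.rpow_lt_one_of_one_lt_of_neg (by norm_num) (by linarith)
  have h20 : 0 < (2 : ℝ) ^ (-σ) := Real.rpow_pos_of_pos (by norm_num) _
  have hK1 : 1 ≤ K := by
    rw [hK]
    exact (one_le_inv₀ (by linarith)).2 (by linarith)
  obtain ⟨C, hC1, hC⟩ := pow_card_le (K := K ^ n) (one_le_pow₀ hK1) (show 0 < σ / 2 by positivity)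
  -- pointwise bound
  have hpt : ∀ a : Fin n → ℕ, (if ∀ i, a i ≠ 0 then
      ENNReal.ofReal ((∏ i, (a i : ℝ) ^ (-(2 * σ))) / radT a) else 0) ≤
      ∑' s : ℕ, (if s = radT a then ENNReal.ofReal ((s : ℝ) ^ (-(1 + σ))) *
        ∏ i, (DD s).indicator (fun m : ℕ => ENNReal.ofReal ((m : ℝ) ^ (-σ))) (a i) else 0) := by
    intro a
    split_ifs with ha
    · refine le_trans ?_ (ENNReal.le_tsum (radT a))
      rw [if_pos rfl]
      set R := radT a with hR
      have hR0 : (0 : ℝ) < R := by
        have : 0 < R := rad_pos _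
        exact_mod_cast this
      have hprod : (∏ i, a i) ≠ 0 := Finset.prod_ne_zero_iff.2 fun i _ => ha i
      have hmem : ∀ i, a i ∈ DD R := by
        intro i
        refine ⟨ha i, ?_⟩
        rw [hR]
        unfold radT
        rw [primeFactors_rad]
        exact Nat.primeFactors_mono (Finset.dvd_prod_of_mem a (Finset.mem_univ i)) hprod
      have h4 : ∏ i, (DD R).indicator (fun m : ℕ => ENNReal.ofReal ((m : ℝ) ^ (-σ))) (a i) =
          ENNReal.ofReal (∏ i, (a i : ℝ) ^ (-σ)) := by
        rw [ENNReal.ofReal_prod_of_nonneg fun i _ => by positivity]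
        refine Finset.prod_congr rfl fun i _ => ?_
        exact Set.indicator_of_mem (hmem i) _
      rw [h4, ← ENNReal.ofReal_mul (by positivity)]
      refine ENNReal.ofReal_le_ofReal ?_
      have h5 : (R : ℝ) ≤ ∏ i, (a i : ℝ) := by
        have : R ≤ ∏ i, a i := rad_le hprod
        exact_mod_cast this
      have h6 : ∏ i, (a i : ℝ) ^ (-(2 * σ)) = (∏ i, (a i : ℝ) ^ (-σ)) * (∏ i, (a i : ℝ) ^ (-σ)) := by
        rw [← Finset.prod_mul_distrib]
        refine Finset.prod_congr rfl fun i _ => ?_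
        have hai : (0 : ℝ) < a i := by
          have := Nat.pos_of_ne_zero (ha i)
          exact_mod_cast this
        rw [← Real.rpow_add hai]
        congr 1
        ring
      have h7 : ∏ i, (a i : ℝ) ^ (-σ) ≤ (R : ℝ) ^ (-σ) := by
        rw [Real.finsetProd_rpow _ _ fun i _ => Nat.cast_nonneg _]
        exact Real.rpow_le_rpow_of_nonpos hR0 h5 (by linarith)
      have h8 : 0 ≤ ∏ i, (a i : ℝ) ^ (-σ) := Finset.prod_nonneg fun i _ => by positivity
      have h9 : (R : ℝ) ^ (-(1 + σ)) = (R : ℝ) ^ (-σ) / R := by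
        rw [neg_add, Real.rpow_add hR0, Real.rpow_neg_one]
        field_simp
      rw [h6, h9, div_mul_eq_mul_div]
      refine div_le_div_of_nonneg_right ?_ hR0.le
      rw [mul_comm ((R : ℝ) ^ (-σ))]
      exact mul_le_mul_of_nonneg_left h7 h8
    · exact zero_le
  refine ne_top_of_le_ne_top ?_ (ENNReal.tsum_le_tsum hpt)
  rw [ENNReal.tsum_comm]
  have h10 : ∀ s : ℕ, ∑' a : Fin n → ℕ, (if s = radT a then ENNReal.ofReal ((s : ℝ) ^ (-(1 + σ))) *
        ∏ i, (DD s).indicator (fun m : ℕ => ENNReal.ofReal ((m : ℝ) ^ (-σ))) (a i) else 0) ≤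
      ENNReal.ofReal (C * (s : ℝ) ^ (-(1 + σ / 2))) := by
    intro s
    rcases Nat.eq_zero_or_pos s with hs | hs
    · have h11 : ∀ a : Fin n → ℕ, (if s = radT a then ENNReal.ofReal ((s : ℝ) ^ (-(1 + σ))) *
        ∏ i, (DD s).indicator (fun m : ℕ => ENNReal.ofReal ((m : ℝ) ^ (-σ))) (a i) else 0) = 0 := by
        intro a
        rw [if_neg]
        have : 0 < radT a := rad_pos _
        omega
      simp only [h11, tsum_zero]
      exact zero_le
    · have hs0 : (0 : ℝ) < s := by exact_mod_cast hs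
      have h11 : ∑' a : Fin n → ℕ, (if s = radT a then ENNReal.ofReal ((s : ℝ) ^ (-(1 + σ))) *
        ∏ i, (DD s).indicator (fun m : ℕ => ENNReal.ofReal ((m : ℝ) ^ (-σ))) (a i) else 0) ≤
        ∑' a : Fin n → ℕ, ENNReal.ofReal ((s : ℝ) ^ (-(1 + σ))) *
        ∏ i, (DD s).indicator (fun m : ℕ => ENNReal.ofReal ((m : ℝ) ^ (-σ))) (a i) := by
        refine ENNReal.tsum_le_tsum fun a => ?_
        split_ifs
        · exact le_rfl
        · exact zero_le
      refine h11.trans ?_
      rw [ENNReal.tsum_mul_left, tsum_tuple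
        (fun m => (DD s).indicator (fun m : ℕ => ENNReal.ofReal ((m : ℝ) ^ (-σ))) m) n]
      have h12 : (∑' m : ℕ, (DD s).indicator (fun m : ℕ => ENNReal.ofReal ((m : ℝ) ^ (-σ))) m) ^ n ≤
          ENNReal.ofReal (C * (s : ℝ) ^ (σ / 2)) := by
        refine (pow_le_pow_left' (sum_DD hσ s) n).trans ?_
        rw [← hK, ← ENNReal.ofReal_pow (by positivity)]
        refine ENNReal.ofReal_le_ofReal ?_
        have h13 := hC s hs
        rw [← pow_mul, mul_comm n, pow_mul] at h13
        exact h13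
      refine (mul_le_mul_right h12 _).trans ?_
      rw [← ENNReal.ofReal_mul (by positivity)]
      refine ENNReal.ofReal_le_ofReal (le_of_eq ?_)
      rw [mul_comm ((s : ℝ) ^ (-(1 + σ))), mul_assoc, ← Real.rpow_add hs0]
      congr 2
      ring
  refine ne_top_of_le_ne_top ?_ (ENNReal.tsum_le_tsum h10)
  have hsum : Summable fun s : ℕ => C * (s : ℝ) ^ (-(1 + σ / 2)) :=
    (Real.summable_nat_rpow.2 (by linarith)).mul_left C
  exact hsum.tsum_ofReal_ne_top

end Pool.Agent.Q154.MA
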