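import Pool.Agent.Q154.MA.Rad

/-!
# Strips, and the Borel-Cantelli argument
-/

set_option autoImplicit false
set_option linter.unusedSectionVars false

open Finset MeasureTheory
open scoped ENNReal

namespace Pool.Agent.Q154.MA

/-- Lebesgue measure on `[-M, M]` -/
noncomputable def lam (M : ℝ) : Measure ℝ := volume.restrict (Set.Icc (-M) M)

instance (M : ℝ) : IsFiniteMeasure (lam M) := by unfold lam; infer_instance

lemma lam_univ (M : ℝ) : lam M Set.univ = ENNReal.ofReal (2 * M) := by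
  unfold lam
  rw [Measure.restrict_apply_univ, Real.volume_Icc]
  congr 1
  ring

/-- **Strips are thin.** -/
lemma strip {n : ℕ} (M : ℝ) (a : Fin (n + 1) → ℝ) (k : Fin (n + 1)) (hk : a k ≠ 0) (δ : ℝ) :
    Measure.pi (fun _ : Fin (n + 1) => lam M) {α | |∑ j, α j * a j| ≤ δ} ≤
      ENNReal.ofReal (2 * δ / |a k|) * ENNReal.ofReal (2 * M) ^ n := by
  have hak : 0 < |a k| := abs_pos.2 hk
  have hmp := measurePreserving_piFinSuccAbove (fun _ : Fin (n + 1) => lam M) k
  obtain ⟨T, hT⟩ : ∃ T : Set (ℝ × (Fin n → ℝ)), T =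
    {z | |z.1 * a k + ∑ j : Fin n, z.2 j * a (k.succAbove j)| ≤ δ} := ⟨_, rfl⟩
  have hTm : MeasurableSet T := by
    rw [hT]
    refine measurableSet_le ?_ measurable_const
    fun_prop
  have hpre : {α : Fin (n + 1) → ℝ | |∑ j, α j * a j| ≤ δ} =
      (MeasurableEquiv.piFinSuccAbove (fun _ : Fin (n + 1) => ℝ) k) ⁻¹' T := by
    ext α
    rw [hT]
    simp only [Set.mem_ofPred_eq, Set.mem_preimage]
    rw [Fin.sum_univ_succAbove _ k]
    rfl
  rw [hpre, hmp.measure_preimage hTm.nullMeasurableSet, Measure.prod_apply_symm hTm]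
  have h1 : ∀ y : Fin n → ℝ, lam M ((fun x => (x, y)) ⁻¹' T) ≤ ENNReal.ofReal (2 * δ / |a k|) := by
    intro y
    have h2 : ((fun x => (x, y)) ⁻¹' T) ⊆
        Metric.closedBall (-(∑ j : Fin n, y j * a (k.succAbove j)) / a k) (δ / |a k|) := by
      intro x hx
      rw [hT] at hx
      simp only [Set.mem_preimage, Set.mem_ofPred_eq] at hx
      rw [Metric.mem_closedBall, Real.dist_eq, le_div_iff₀ hak, ← abs_mul]
      refine le_trans (le_of_eq ?_) hx
      congr 1
      field_simp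
      ring
    calc lam M ((fun x => (x, y)) ⁻¹' T) ≤ volume ((fun x => (x, y)) ⁻¹' T) :=
          Measure.restrict_apply_le _ _
      _ ≤ _ := measure_mono h2
      _ = ENNReal.ofReal (2 * δ / |a k|) := by
          rw [Real.volume_closedBall]
          congr 1
          ring
  refine (lintegral_mono h1).trans ?_
  rw [lintegral_const, Measure.pi_univ]
  simp only [lam_univ, Finset.prod_const, Finset.card_univ, Fintype.card_fin]
  exact le_rfl

/-- the same for `m` linear forms -/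
lemma strips {m n : ℕ} (M : ℝ) (a : Fin (n + 1) → ℝ) (k : Fin (n + 1)) (hk : a k ≠ 0) (δ : ℝ) :
    Measure.pi (fun _ : Fin m => Measure.pi (fun _ : Fin (n + 1) => lam M))
      {A | ∀ i, |∑ j, A i j * a j| ≤ δ} ≤
      (ENNReal.ofReal (2 * δ / |a k|) * ENNReal.ofReal (2 * M) ^ n) ^ m := by
  have h : {A : Fin m → Fin (n + 1) → ℝ | ∀ i, |∑ j, A i j * a j| ≤ δ} =
      Set.pi Set.univ fun _ : Fin m => {α : Fin (n + 1) → ℝ | |∑ j, α j * a j| ≤ δ} := by
    ext A
    simp only [Set.mem_ofPred_eq, Set.mem_univ_pi]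
  rw [h, Measure.pi_pi, Finset.prod_const, Finset.card_univ, Fintype.card_fin]
  exact pow_le_pow_left' (strip M a k hk δ) m

/-- the height of a tuple -/
def hgt {n : ℕ} (b : Fin n → ℕ) : ℕ := Finset.univ.sup b

lemma le_hgt {n : ℕ} (b : Fin n → ℕ) (j : Fin n) : b j ≤ hgt b :=
  Finset.le_sup (f := b) (Finset.mem_univ j)

lemma exists_hgt {n : ℕ} (b : Fin (n + 1) → ℕ) : ∃ k, b k = hgt b := by
  obtain ⟨k, _, hk⟩ := Finset.exists_mem_eq_sup (Finset.univ : Finset (Fin (n + 1)))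
    Finset.univ_nonempty b
  exact ⟨k, hk.symm⟩

lemma prod_ge_hgt {n : ℕ} (b : Fin (n + 1) → ℕ) (hb : ∀ j, b j ≠ 0) {τ : ℝ} (hτ : 0 ≤ τ) :
    (hgt b : ℝ) ^ (-(τ * (n + 1 : ℕ))) ≤ ∏ j, (b j : ℝ) ^ (-τ) := by
  have h1 : (hgt b : ℝ) ^ (-(τ * (n + 1 : ℕ))) = ∏ _j : Fin (n + 1), (hgt b : ℝ) ^ (-τ) := by
    rw [Finset.prod_const, Finset.card_univ, Fintype.card_fin, ← Real.rpow_natCast,
      ← Real.rpow_mul (Nat.cast_nonneg _)]
    congr 1
    ring
  rw [h1]
  refine Finset.prod_le_prod (fun j _ => by positivity) fun j _ => ?_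
  refine Real.rpow_le_rpow_of_nonpos ?_ ?_ (by linarith)
  · have := Nat.pos_of_ne_zero (hb j)
    exact_mod_cast this
  · exact_mod_cast le_hgt b j

/-- **Borel-Cantelli.** -/
theorem ae_finite (m n : ℕ) (hm : 1 ≤ m) (M : ℝ) (ε : ℝ) (hε : 0 < ε)
    (s : Fin (n + 1) → ℝ) (hs : ∀ i, |s i| = 1) :
    ∀ᵐ A ∂(Measure.pi fun _ : Fin m => Measure.pi fun _ : Fin (n + 1) => lam M),
      {b : Fin (n + 1) → ℕ | (∀ j, b j ≠ 0) ∧
        ‖fun i => ∑ j, A i j * (s j * b j)‖ ^ m * radT b < (hgt b : ℝ) ^ ((m : ℝ) - ε)}.Finite := by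
  classical
  obtain ⟨δ, hδ⟩ : ∃ δ : (Fin (n + 1) → ℕ) → ℝ, δ = fun b =>
    ((hgt b : ℝ) ^ ((m : ℝ) - ε) / radT b) ^ (1 / (m : ℝ)) := ⟨_, rfl⟩
  obtain ⟨E, hE⟩ : ∃ E : (Fin (n + 1) → ℕ) → Set (Fin m → Fin (n + 1) → ℝ), E = fun b =>
    if ∀ j, b j ≠ 0 then {A | ∀ i, |∑ j, A i j * (s j * b j)| ≤ δ b} else ∅ := ⟨_, rfl⟩
  have hm0 : (0 : ℝ) < m := by exact_mod_cast hm
  have hsum : ∑' b, Measure.pi (fun _ : Fin m => Measure.pi fun _ : Fin (n + 1) => lam M) (E b) ≠
      ∞ := by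
    have hser := series (σ := ε / (2 * (n + 1 : ℕ))) (by positivity) (n + 1)
    have hK : (ENNReal.ofReal (2 ^ m) * (ENNReal.ofReal (2 * M) ^ n) ^ m) ≠ ∞ :=
      ENNReal.mul_ne_top ENNReal.ofReal_ne_top
        (ENNReal.pow_ne_top (ENNReal.pow_ne_top ENNReal.ofReal_ne_top))
    refine ne_top_of_le_ne_top (ENNReal.mul_ne_top hK hser) ?_
    rw [← ENNReal.tsum_mul_left]
    refine ENNReal.tsum_le_tsum fun b => ?_
    rw [hE]
    simp only
    split_ifs with hb
    · obtain ⟨k, hk⟩ := exists_hgt b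
      have hbk : (0 : ℝ) < b k := by
        have := Nat.pos_of_ne_zero (hb k)
        exact_mod_cast this
      have hrad : (0 : ℝ) < radT b := by
        have : 0 < radT b := rad_pos _
        exact_mod_cast this
      have habs : |s k * (b k : ℝ)| = b k := by
        rw [abs_mul, hs k, one_mul, abs_of_pos hbk]
      have hne : s k * (b k : ℝ) ≠ 0 := by
        rw [← abs_pos, habs]
        exact hbk
      refine (strips M (fun j => s j * b j) k hne (δ b)).trans ?_
      rw [habs, mul_pow]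
      have hδ0 : 0 ≤ δ b := by rw [hδ]; positivity
      have h1 : ENNReal.ofReal (2 * δ b / b k) ^ m = ENNReal.ofReal (2 ^ m) *
          ENNReal.ofReal ((hgt b : ℝ) ^ (-ε) / radT b) := by
        rw [← ENNReal.ofReal_pow (by positivity), ← ENNReal.ofReal_mul (by positivity)]
        congr 1
        have h2 : (δ b) ^ m = (hgt b : ℝ) ^ ((m : ℝ) - ε) / radT b := by
          rw [hδ]
          simp only
          rw [← Real.rpow_natCast, ← Real.rpow_mul (by positivity), one_div,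
            inv_mul_cancel₀ hm0.ne', Real.rpow_one]
        rw [div_pow, mul_pow, h2, hk]
        have hh : (0 : ℝ) < hgt b := by rw [← hk]; exact hbk
        rw [sub_eq_add_neg, Real.rpow_add hh, Real.rpow_natCast]
        field_simp
      rw [h1, mul_assoc, mul_comm (ENNReal.ofReal ((hgt b : ℝ) ^ (-ε) / radT b)), ← mul_assoc]
      refine mul_le_mul_right (ENNReal.ofReal_le_ofReal ?_) _
      refine div_le_div_of_nonneg_right ?_ hrad.le
      have h3 := prod_ge_hgt b hb (τ := 2 * (ε / (2 * (n + 1 : ℕ)))) (by positivity)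
      have h4 : 2 * (ε / (2 * ((n + 1 : ℕ) : ℝ))) * ((n + 1 : ℕ) : ℝ) = ε := by
        have : ((n + 1 : ℕ) : ℝ) ≠ 0 := by positivity
        field_simp
      rw [h4] at h3
      exact h3
    · simp
  filter_upwards [ae_finite_setOfPred_mem hsum] with A hA
  refine hA.subset ?_
  rintro b ⟨hb, hlt⟩
  rw [Set.mem_ofPred_eq, hE]
  simp only
  rw [if_pos hb]
  intro i
  have hrad : (0 : ℝ) < radT b := by
    have : 0 < radT b := rad_pos _
    exact_mod_cast this
  have h5 : |∑ j, A i j * (s j * b j)| ≤ ‖fun i => ∑ j, A i j * (s j * b j)‖ := by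
    have := norm_le_pi_norm (fun i => ∑ j, A i j * (s j * (b j : ℝ))) i
    rwa [Real.norm_eq_abs] at this
  have h6 : |∑ j, A i j * (s j * b j)| ^ m ≤ (hgt b : ℝ) ^ ((m : ℝ) - ε) / radT b := by
    rw [le_div_iff₀ hrad]
    refine le_trans ?_ hlt.le
    exact mul_le_mul_of_nonneg_right (pow_le_pow_left₀ (abs_nonneg _) h5 m) hrad.le
  rw [hδ]
  simp only
  calc |∑ j, A i j * (s j * b j)| = (|∑ j, A i j * (s j * b j)| ^ m) ^ (1 / (m : ℝ)) := by
        rw [← Real.rpow_natCast, ← Real.rpow_mul (abs_nonneg _), one_div,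
          mul_inv_cancel₀ hm0.ne', Real.rpow_one]
    _ ≤ _ := Real.rpow_le_rpow (by positivity) h6 (by positivity)

/-- no exact zero -/
theorem ae_ne_zero (m n : ℕ) (hm : 1 ≤ m) (M : ℝ) (s : Fin (n + 1) → ℝ) (hs : ∀ i, |s i| = 1) :
    ∀ᵐ A ∂(Measure.pi fun _ : Fin m => Measure.pi fun _ : Fin (n + 1) => lam M),
      ∀ b : Fin (n + 1) → ℕ, (∀ j, b j ≠ 0) → 0 < ‖fun i => ∑ j, A i j * (s j * b j)‖ := by
  rw [ae_all_iff]
  intro b
  by_cases hb : ∀ j, b j ≠ 0
  · have hne : s 0 * (b 0 : ℝ) ≠ 0 := by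
      have h1 : s 0 ≠ 0 := by
        intro h
        have := hs 0
        rw [h, abs_zero] at this
        exact zero_ne_one this
      exact mul_ne_zero h1 (by exact_mod_cast hb 0)
    have h2 := strips (m := m) M (fun j => s j * b j) 0 hne 0
    have h3 : Measure.pi (fun _ : Fin m => Measure.pi (fun _ : Fin (n + 1) => lam M))
      {A | ∀ i, |∑ j, A i j * (s j * b j)| ≤ 0} = 0 := by
      refine le_antisymm (h2.trans ?_) zero_le
      rw [mul_zero, zero_div, ENNReal.ofReal_zero, zero_mul, zero_pow (by omega)]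
    rw [ae_iff]
    refine measure_mono_null ?_ h3
    intro A hA
    simp only [Set.mem_ofPred_eq, Classical.not_imp, not_lt] at hA ⊢
    intro i
    have h4 := norm_le_pi_norm (fun i => ∑ j, A i j * (s j * (b j : ℝ))) i
    rw [Real.norm_eq_abs] at h4
    exact h4.trans hA.2
  · exact Filter.Eventually.of_forall fun A h => absurd h hb

end Pool.Agent.Q154.MA
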